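import Pool.Agent.H12.KP.Targets4

/-!
# Project KEW, block (i), row BCH: base change to the completion
-/

set_option autoImplicit false

namespace Pool.Agent.H77.KP

open Pool.Agent.H12.KP Polynomial TensorProduct

universe u v

/-- the completion is flat -/
theorem flat_compl {A Ah : Type u} [CommRing A] [IsDomain A] [IsDiscreteValuationRing A]
    [CommRing Ah] [Algebra A Ah] (π : A) (hπ : Irreducible π) (hc : IsCompl Ah π) :
    Module.Flat A Ah := by
  have := hc.domain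
  have hinj : Function.Injective (algebraMap A Ah) := by
    rw [injective_iff_map_eq_zero]
    intro a ha
    have h1 : ∀ k, π ^ k ∣ a := fun k => hc.pure a k (by rw [ha]; exact dvd_zero _)
    by_contra h0
    obtain ⟨n, hn⟩ := FiniteMultiplicity.of_not_isUnit hπ.not_isUnit h0
    exact hn (h1 (n + 1))
  have : Module.IsTorsionFree A Ah := Module.isTorsionFree_iff_algebraMap_injective.mpr hinj
  infer_instance

section

variable {A : Type u} {B0 B1 B01 : Type v} [CommRing A] [CommRing B0] [CommRing B1]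
    [CommRing B01] [Algebra A B0] [Algebra A B1] [Algebra A B01] (C : Charts A B0 B1 B01)

/-- the difference map -/
noncomputable def dif (N : ℕ) : (B0 × B1) →ₗ[A] B01 :=
  C.i0.toLinearMap ∘ₗ LinearMap.fst A B0 B1 -
    (LinearMap.mulLeft A (C.i0 C.T ^ N)) ∘ₗ C.i1.toLinearMap ∘ₗ LinearMap.snd A B0 B1

theorem dif_apply (N : ℕ) (z : B0 × B1) :
    dif C N z = C.i0 z.1 - C.i0 C.T ^ N * C.i1 z.2 := rfl

theorem dif_exact (N : ℕ) : Function.Exact (HN C N).subtype (dif C N) := by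
  intro z
  rw [dif_apply, sub_eq_zero]
  constructor
  · intro h
    exact ⟨⟨z, h⟩, rfl⟩
  · rintro ⟨⟨y, hy⟩, rfl⟩
    exact hy

end

section

variable {A Ah B0 B1 B01 : Type u} [CommRing A] [CommRing Ah] [Algebra A Ah] [CommRing B0]
    [CommRing B1] [CommRing B01] [Algebra A B0] [Algebra A B1] [Algebra A B01]
    (C : Charts A B0 B1 B01)

theorem bc_i0_tmul (x : Ah) (b : B0) : (C.bc Ah).i0 (x ⊗ₜ b) = x ⊗ₜ C.i0 b := rfl

theorem bc_i1_tmul (x : Ah) (b : B1) : (C.bc Ah).i1 (x ⊗ₜ b) = x ⊗ₜ C.i1 b := rfl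

theorem bc_T_pow (N : ℕ) : (C.bc Ah).i0 (C.bc Ah).T ^ N = 1 ⊗ₜ (C.i0 C.T ^ N) := by
  have h : (C.bc Ah).i0 (C.bc Ah).T = 1 ⊗ₜ (C.i0 C.T) := rfl
  rw [h, Algebra.TensorProduct.tmul_pow, one_pow]

theorem split_bc (N : ℕ) (h : ∀ z : B01, ∃ z0 z1, z = C.i0 z0 + C.i0 C.T ^ N * C.i1 z1)
    (z : Ah ⊗[A] B01) : ∃ z0 z1,
        z = (C.bc Ah).i0 z0 + (C.bc Ah).i0 (C.bc Ah).T ^ N * (C.bc Ah).i1 z1 := by
  induction z using TensorProduct.induction_on with
  | zero => exact ⟨0, 0, by simp⟩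
  | tmul x b =>
    obtain ⟨z0, z1, hz⟩ := h b
    refine ⟨x ⊗ₜ z0, x ⊗ₜ z1, ?_⟩
    rw [bc_T_pow, bc_i0_tmul, bc_i1_tmul, Algebra.TensorProduct.tmul_mul_tmul, one_mul,
      ← TensorProduct.tmul_add, ← hz]
  | add x y hx hy =>
    obtain ⟨a0, a1, ha⟩ := hx
    obtain ⟨b0, b1, hb⟩ := hy
    refine ⟨a0 + b0, a1 + b1, ?_⟩
    rw [map_add, map_add, ha, hb]
    ring

/-- the difference map after base change -/
theorem dif_bc (N : ℕ) (w : Ah ⊗[A] (B0 × B1)) :
    (dif C N).lTensor Ah w =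
      (C.bc Ah).i0 (TensorProduct.prodRight A Ah Ah B0 B1 w).1 -
        (C.bc Ah).i0 (C.bc Ah).T ^ N *
          (C.bc Ah).i1 (TensorProduct.prodRight A Ah Ah B0 B1 w).2 := by
  induction w using TensorProduct.induction_on with
  | zero => simp
  | tmul x b =>
    rw [LinearMap.lTensor_tmul, dif_apply, TensorProduct.prodRight_tmul]
    simp only
    rw [bc_T_pow, bc_i0_tmul, bc_i1_tmul, Algebra.TensorProduct.tmul_mul_tmul, one_mul,
      ← TensorProduct.tmul_sub]
  | add x y hx hy =>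
    rw [map_add, map_add, hx, hy, Prod.fst_add, Prod.snd_add, map_add, map_add]
    ring

/-- the image of a pair -/
noncomputable def pr (Ah : Type u) [CommRing Ah] [Algebra A Ah] :
    (B0 × B1) →ₗ[A] ((Ah ⊗[A] B0) × (Ah ⊗[A] B1)) :=
  ((TensorProduct.prodRight A A Ah B0 B1).toLinearMap) ∘ₗ (TensorProduct.mk A Ah (B0 × B1) 1)

theorem pr_apply (z : B0 × B1) :
    pr (A := A) Ah z = ((1 : Ah) ⊗ₜ[A] z.1, (1 : Ah) ⊗ₜ[A] z.2) := rfl

theorem pr_mem (N : ℕ) (z : B0 × B1) (hz : z ∈ HN C N) : pr (A := A) Ah z ∈ HN (C.bc Ah) N := by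
  show (C.bc Ah).i0 (pr (A := A) Ah z).1 =
    (C.bc Ah).i0 (C.bc Ah).T ^ N * (C.bc Ah).i1 (pr (A := A) Ah z).2
  rw [pr_apply]
  simp only
  rw [bc_T_pow, bc_i0_tmul, bc_i1_tmul, Algebra.TensorProduct.tmul_mul_tmul, one_mul]
  have : C.i0 z.1 = C.i0 C.T ^ N * C.i1 z.2 := hz
  rw [this]

theorem hn_bc [Module.Flat A Ah] (N : ℕ) (hfg : (HN C N).FG) : (HN (C.bc Ah) N).FG := by
  classical
  obtain ⟨s, hs⟩ := hfg
  refine ⟨s.image (pr (A := A) Ah), ?_⟩
  apply le_antisymm
  · rw [Submodule.span_le]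
    intro y hy
    rw [Finset.coe_image] at hy
    obtain ⟨z, hz, rfl⟩ := hy
    exact pr_mem C N z (by rw [← hs]; exact Submodule.subset_span hz)
  · intro z hz
    have hz' : (C.bc Ah).i0 z.1 = (C.bc Ah).i0 (C.bc Ah).T ^ N * (C.bc Ah).i1 z.2 := hz
    have h1 := dif_bc (Ah := Ah) C N ((TensorProduct.prodRight A Ah Ah B0 B1).symm z)
    rw [LinearEquiv.apply_symm_apply, hz', sub_self] at h1
    obtain ⟨v, hv⟩ := (Module.Flat.lTensor_exact Ah (dif_exact C N) _).1 h1
    have h2 : z = TensorProduct.prodRight A Ah Ah B0 B1 (((HN C N).subtype.lTensor Ah) v) := by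
      rw [hv, LinearEquiv.apply_symm_apply]
    rw [h2]
    clear hv h2
    induction v using TensorProduct.induction_on with
    | zero => simp
    | tmul x h =>
      rw [LinearMap.lTensor_tmul, TensorProduct.prodRight_tmul]
      have e1 : (x ⊗ₜ[A] ((HN C N).subtype h).1, x ⊗ₜ[A] ((HN C N).subtype h).2) =
          x • pr (A := A) Ah (h : B0 × B1) := by
        rw [pr_apply, Prod.smul_mk, TensorProduct.smul_tmul', TensorProduct.smul_tmul',
          smul_eq_mul, mul_one]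
        rfl
      rw [e1]
      refine Submodule.smul_mem _ _ ?_
      have h3 : (h : B0 × B1) ∈ Submodule.span A (s : Set (B0 × B1)) := by rw [hs]; exact h.2
      have h4 : pr (A := A) Ah (h : B0 × B1) ∈
          (Submodule.span A (s : Set (B0 × B1))).map (pr (A := A) Ah) := ⟨_, h3, rfl⟩
      rw [Submodule.map_span] at h4
      rw [Finset.coe_image]
      exact Submodule.span_subset_span A Ah _ h4
    | add x y hx hy =>
      rw [map_add, map_add]
      exact Submodule.add_mem _ hx hy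

theorem fin_bc (h : ∃ M : Submodule A B1, M.FG ∧ ∀ z : B1, ∃ m ∈ M, ∃ c, z = m + C.S * c) :
    ∃ M : Submodule Ah (Ah ⊗[A] B1), M.FG ∧ ∀ z, ∃ m ∈ M, ∃ c, z = m + (C.bc Ah).S * c := by
  classical
  obtain ⟨M, ⟨s, hs⟩, h2⟩ := h
  have hS : (C.bc Ah).S = 1 ⊗ₜ C.S := rfl
  refine ⟨Submodule.span Ah (s.image (fun b : B1 => (1 : Ah) ⊗ₜ[A] b) : Finset (Ah ⊗[A] B1)),
    ⟨_, rfl⟩, ?_⟩
  intro z
  induction z using TensorProduct.induction_on with
  | zero => exact ⟨0, Submodule.zero_mem _, 0, by simp⟩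
  | tmul x b =>
    obtain ⟨m, hm, c, hc⟩ := h2 b
    refine ⟨x ⊗ₜ m, ?_, x ⊗ₜ c, ?_⟩
    · have e1 : x ⊗ₜ[A] m = x • ((1 : Ah) ⊗ₜ[A] m) := by
        rw [TensorProduct.smul_tmul', smul_eq_mul, mul_one]
      rw [e1]
      refine Submodule.smul_mem _ _ ?_
      rw [← hs] at hm
      have h4 : (TensorProduct.mk A Ah B1 1) m ∈
          (Submodule.span A (s : Set B1)).map (TensorProduct.mk A Ah B1 1) := ⟨_, hm, rfl⟩
      rw [Submodule.map_span] at h4
      rw [Finset.coe_image]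
      exact Submodule.span_subset_span A Ah _ h4
    · rw [hS, Algebra.TensorProduct.tmul_mul_tmul, one_mul, ← TensorProduct.tmul_add, ← hc]
  | add x y hx hy =>
    obtain ⟨m, hm, c, hc⟩ := hx
    obtain ⟨m', hm', c', hc'⟩ := hy
    refine ⟨m + m', Submodule.add_mem _ hm hm', c + c', ?_⟩
    rw [hc, hc']
    ring

end

theorem pf_BCH : S_BCH.{u} := by
  intro A Ah B0 B1 B01 _ _ _ _ _ _ _ _ _ _ _ C π hπ hc htf
  have := flat_compl π hπ hc
  refine ⟨?_, fun N hfg _ => hn_bc C N hfg, fun N h => split_bc C N h, fun h => fin_bc C h⟩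
  intro z hz
  have hinj : Function.Injective (LinearMap.mulLeft A (algebraMap A B01 π)) := by
    rw [injective_iff_map_eq_zero]
    intro b hb
    exact htf b hb
  have h1 := Module.Flat.lTensor_preserves_injective_linearMap (M := Ah) _ hinj
  apply h1
  rw [map_zero, ← hz]
  clear hz
  induction z using TensorProduct.induction_on with
  | zero => simp
  | tmul x b =>
    rw [LinearMap.lTensor_tmul, LinearMap.mulLeft_apply, Algebra.TensorProduct.algebraMap_apply,
      Algebra.TensorProduct.tmul_mul_tmul, one_mul]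
    simp only [Algebra.algebraMap_self, RingHom.id_apply]
    rw [← Algebra.smul_def, ← Algebra.smul_def, TensorProduct.tmul_smul,
      TensorProduct.smul_tmul']
  | add x y hx hy => rw [map_add, hx, hy, mul_add]

end Pool.Agent.H77.KP
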