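import Pool.Agent.H12.KP.Targets4

/-!
# Project KEW, block (i), row CORE: theorem (P1) for `h = 1 + π^n α / β`
-/

set_option autoImplicit false

namespace Pool.Agent.H77.KP

open Pool.Agent.H12.KP Polynomial TensorProduct

universe u v

section

variable {A : Type u} {D : Type u} [CommRing A] [CommRing D] [Algebra A D]
  (𝒟 : ℕ → Submodule A D) [GradedAlgebra 𝒟]

/-- minimal primes over `π` are homogeneous -/
theorem hom_of_min (π : A) (y : Ideal D) (hy : y ∈ (Ideal.span {algebraMap A D π}).minimalPrimes) :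
    y.IsHomogeneous 𝒟 := by
  have hyp : y.IsPrime := hy.1.1
  have h1 : (Ideal.span {algebraMap A D π}).IsHomogeneous 𝒟 :=
    Ideal.homogeneous_span 𝒟 _ (by
      intro z hz
      rw [Set.mem_singleton_iff] at hz
      subst hz
      exact ⟨0, SetLike.algebraMap_mem_graded 𝒟 π⟩)
  have h2 : (y.homogeneousCore 𝒟).toIdeal.IsPrime := hyp.homogeneousCore
  have h3 : (y.homogeneousCore 𝒟).toIdeal ≤ y := Ideal.toIdeal_homogeneousCore_le 𝒟 y
  have h4 : Ideal.span {algebraMap A D π} ≤ (y.homogeneousCore 𝒟).toIdeal := by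
    have h5 := Ideal.homogeneousCore_mono 𝒟 hy.1.2
    have h6 : ((Ideal.span {algebraMap A D π}).homogeneousCore 𝒟).toIdeal =
        Ideal.span {algebraMap A D π} := h1.toIdeal_homogeneousCore_eq_self
    rw [← h6]
    exact h5
  have h5 : y ≤ (y.homogeneousCore 𝒟).toIdeal := hy.2 ⟨h2, h4⟩ h3
  have h6 : y = (y.homogeneousCore 𝒟).toIdeal := le_antisymm h5 h3
  rw [h6]
  exact (y.homogeneousCore 𝒟).isHomogeneous

/-- below every point of the special fibre there is a generic point -/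
theorem exists_gen (π : A) (P : Ideal D) (hP : Rel 𝒟 P) (hπ : algebraMap A D π ∈ P) :
    ∃ y ∈ (Ideal.span {algebraMap A D π}).minimalPrimes, Rel 𝒟 y ∧ y ≤ P ∧
      algebraMap A D π ∈ y := by
  have hPp : P.IsPrime := hP.1
  have h1 : Ideal.span {algebraMap A D π} ≤ P := by
    rw [Ideal.span_le]
    intro z hz
    rw [Set.mem_singleton_iff] at hz
    subst hz
    exact hπ
  obtain ⟨y, hy, hyP⟩ := Ideal.exists_minimalPrimes_le h1
  refine ⟨y, hy, ⟨hy.1.1, hom_of_min 𝒟 π y hy, fun h => hP.2.2 (h.trans hyP)⟩, hyP, ?_⟩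
  exact hy.1.2 (Ideal.subset_span rfl)

theorem noeth [IsNoetherianRing A] (π : A) (h : RelCurve A D 𝒟 π) : IsNoetherianRing D := by
  obtain ⟨s, hs⟩ := h.fg
  have h1 : Algebra.FiniteType A D := by
    refine ⟨⟨s, ?_⟩⟩
    rw [← Algebra.adjoin_span, hs]
    exact h.gen
  exact Algebra.FiniteType.isNoetherianRing A D

end

theorem pf_CORE (hF : S_FORMS.{u}) (hL : S_CERTL.{u}) (hC : S_CONC.{u}) : S_CORE.{u} := by
  intro A D _ _ _ _ _ _ _ _ 𝒟 _ L _ _ _ π hπ hRC p hp ε e a r hpe hε ha hea x hx m α β hα hβ hβ0 hy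
  have hn0 : 1 ≤ r * e + a := le_trans ha (Nat.le_add_left _ _)
  have hxp : x.IsPrime := hx.1.1
  have hπx : algebraMap A D π ∈ x := hx.2.1
  have hone : ∀ P : Ideal D, P.IsPrime → (1 : L) ∈ Loc 𝒟 L P := fun P hP =>
    ⟨0, 1, SetLike.one_mem_graded 𝒟, 1, SetLike.one_mem_graded 𝒟,
      fun h => hP.ne_top ((Ideal.eq_top_iff_one P).2 h), by rw [one_mul]⟩
  by_cases hβx : β ∈ x
  · obtain ⟨Δ, d0, l0, l1, hFm, h0x, h1x, hc1, hc2⟩ := hF A D 𝒟 π hπ hRC x hx m β hβ hβx hy
    obtain ⟨y, hym, hyR, hyx, hπy⟩ := exists_gen 𝒟 π x hx.1 hπx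
    have hyx' : y < x := lt_of_le_of_ne hyx fun h => hy y hym hyR (h ▸ hβx)
    obtain ⟨N, hcert⟩ := hL A D 𝒟 L π hπ hRC p hp ε e a r hpe hε ha hea m α β hα hβ hβ0 x y hx.1
      hyR hyx' hπy Δ d0 l0 l1 hFm h1x (by
      intro P hP hπP hβP
      obtain ⟨y', hym', hyR', hyP', hπy'⟩ := exists_gen 𝒟 π P hP hπP
      have hlt : y' < P := lt_of_le_of_ne hyP' fun h => hy y' hym' hyR' (h ▸ hβP)
      have hcl : Clo 𝒟 π P := hRC.dim y' P hyR' hP hπy' hlt
      by_cases hPx : P = x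
      · subst hPx
        exact P.mul_mem_right _ h0x
      · exact P.mul_mem_left _ (hc1 P hcl hβP hPx))
    have hN : IsNoetherianRing D := noeth 𝒟 π hRC
    exact hC A D 𝒟 L π hπ hRC (r * e + a) (p ^ r) hn0 (Nat.one_le_pow _ _ hp.pos) m α β hα hβ hβ0 x
      hx hy Δ d0 l0 l1 hFm h1x hc1 hc2 N hcert
  · -- `h` is a unit at `x`
    set γ : D := β + algebraMap A D π ^ (r * e + a) * α with hγ
    have hγm : γ ∈ 𝒟 m := by
      refine Submodule.add_mem _ hβ ?_
      rw [← map_pow, ← Algebra.smul_def]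
      exact Submodule.smul_mem _ _ hα
    have hγx : γ ∉ x := by
      intro h
      apply hβx
      have h1 : algebraMap A D π ^ (r * e + a) * α ∈ x :=
        x.mul_mem_right _ (x.pow_mem_of_mem hπx _ (by omega))
      have h2 := x.sub_mem h h1
      rw [hγ, add_sub_cancel_right] at h2
      exact h2
    have hγ0 : γ ≠ 0 := fun h => hγx (h ▸ x.zero_mem)
    have hinj : Function.Injective (algebraMap D L) := IsFractionRing.injective D L
    have hβL : algebraMap D L β ≠ 0 := fun h => hβ0 (hinj (by rw [h, map_zero]))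
    have hγL : algebraMap D L γ ≠ 0 := fun h => hγ0 (hinj (by rw [h, map_zero]))
    have hh : 1 + algebraMap D L (algebraMap A D π) ^ (r * e + a) *
        (algebraMap D L α / algebraMap D L β) = algebraMap D L γ / algebraMap D L β := by
      rw [hγ, map_add, map_mul, map_pow]
      field_simp
    rw [hh]
    refine ⟨1, hone ⊥ Ideal.isPrime_bot, one_ne_zero, ⟨1, hone ⊥ Ideal.isPrime_bot, one_ne_zero,
      algebraMap D L β / algebraMap D L γ, ⟨m, β, hβ, γ, hγm, hγx, ?_⟩, div_ne_zero hβL hγL,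
      ⟨m, γ, hγm, β, hβ, hβx, ?_⟩, ?_⟩, ?_⟩
    · field_simp
    · field_simp
    · rw [one_pow]; field_simp
    · intro x' hx' _
      refine ⟨1, hone ⊥ Ideal.isPrime_bot, one_ne_zero, 1, hone x' hx'.1.1, one_ne_zero, ?_, ?_⟩
      · rw [inv_one]; exact hone x' hx'.1.1
      · rw [one_pow, mul_one]

end Pool.Agent.H77.KP
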